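import Pool.Agent.Work.MP_52dd0f_an.Defs

/-!
# Ultrapowers, in intrinsic form (MP_52dd0f_an, hand-in on isomorphic ultrapowers)
-/

set_option autoImplicit false

namespace SCO

open Filter Topology
open scoped BoundedContinuousFunction

universe u

/-- `Q` is (a copy of) the tracial ultrapower `M^𝒱` of `(M, τ)` along the ultrafilter `𝒱` on the set `I`: the quotient of the
C*-algebra `I →ᵇ M` of all bounded families of elements of `M` (`I` carries the discrete topology) by the ideal of the
families which tend to `0` in 2-norm along `𝒱`. -/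
def IsUltrapower {I M : Type u} [TopologicalSpace I] [DiscreteTopology I] [CStarAlgebra M] (𝒱 : Ultrafilter I)
    (τ : M →ₗ[ℂ] ℂ) (Q : Type u) [CStarAlgebra Q] : Prop :=
  ∃ π : (I →ᵇ M) →⋆ₐ[ℂ] Q, Function.Surjective π ∧
    ∀ x : I →ᵇ M, π x = 0 ↔ Tendsto (fun i => nrm2 τ (x i)) 𝒱 (𝓝 0)

end SCO
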