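import Pool.Agent.Work.MP_52dd0f_uf.GU3
import Pool.Agent.Work.MP_52dd0f_uf.Defs

/-!
# Factors `N` such that `N` and `N^r` have isomorphic ultrapowers: the main theorem
-/

set_option autoImplicit false
set_option linter.unusedSectionVars false

namespace SCO

open Filter Topology
open scoped BoundedContinuousFunction

universe u

namespace GU

open ND UF

section Iso

variable {I J : Type u} [TopologicalSpace I] [DiscreteTopology I] [TopologicalSpace J] [DiscreteTopology J]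
  {N K Q : Type u} [CStarAlgebra N] [TVN N] [FactorII N] [CStarAlgebra K] [TVN K] [FactorII K]
  [CStarAlgebra Q]

/-- two factors with the same ultrapower -/
theorem exists_iso {𝒱 : Ultrafilter I} {𝒲 : Ultrafilter J}
    (h1 : IsUltrapower 𝒱 (tr : N →ₗ[ℂ] ℂ) Q) (h2 : IsUltrapower 𝒲 (tr : K →ₗ[ℂ] ℂ) Q) :
    ∃ Θ : UP N 𝒱 →⋆ₙₐ[ℂ] UP K 𝒲, CornerMap Θ (1 : UP K 𝒲) := by
  obtain ⟨p, hp, hp2⟩ := h1
  obtain ⟨q, hq, hq2⟩ := h2
  let p' : Sq I N →⋆ₐ[ℂ] Q := p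
  let q' : Sq J K →⋆ₐ[ℂ] Q := q
  have hp' : Function.Surjective p' := hp
  have hq' : Function.Surjective q' := hq
  have hp0 : ∀ x : Sq I N, p' x = 0 ↔ toUP 𝒱 x = 0 := fun x => by
    rw [toUP_eq_zero_iff]; exact hp2 x
  have hq0 : ∀ x : Sq J K, q' x = 0 ↔ toUP 𝒲 x = 0 := fun x => by
    rw [toUP_eq_zero_iff]; exact hq2 x
  obtain ⟨α, hα⟩ := exists_descend (nu (toUP (M := N) 𝒱)) (toUP_surjective 𝒱) (nu p')
    (fun x hx => (hp0 x).2 hx)
  obtain ⟨β, hβ⟩ := exists_descend (nu q') hq' (nu (toUP (M := K) 𝒲)) (fun x hx => (hq0 x).1 hx)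
  have hα' : ∀ x, α (toUP 𝒱 x) = p' x := hα
  have hβ' : ∀ x, β (q' x) = toUP 𝒲 x := hβ
  have hΘ : ∀ (x : Sq I N) (y : Sq J K), p' x = q' y → (β.comp α) (toUP 𝒱 x) = toUP 𝒲 y := by
    intro x y hxy
    show β (α (toUP 𝒱 x)) = _
    rw [hα', hxy, hβ']
  refine ⟨β.comp α, IsProj.one, ?_, ?_, ?_, ?_, ?_⟩
  · intro a b hab
    have h0 : (β.comp α) (a - b) = 0 := by rw [map_sub, hab, sub_self]
    obtain ⟨x, hx⟩ := toUP_surjective 𝒱 (a - b)
    obtain ⟨y, hy⟩ := hq' (p' x)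
    rw [← hx, hΘ x y hy.symm, ← hq0, hy, hp0, hx] at h0
    exact sub_eq_zero.1 h0
  · intro z _
    obtain ⟨y, rfl⟩ := toUP_surjective 𝒲 z
    obtain ⟨x, hx⟩ := hp' (q' y)
    exact ⟨toUP 𝒱 x, hΘ x y hx⟩
  · intro y; rw [one_mul, mul_one]
  · rw [← map_one (toUP (M := N) 𝒱), hΘ 1 1 (by rw [map_one, map_one]), map_one]
  · intro a
    have f1 : FactorII (UP N 𝒱) := fac N 𝒱
    let ψ : UP N 𝒱 →ₗ[ℂ] ℂ :=
      { toFun := fun y => tr ((β.comp α) y)
        map_add' := fun x y => by rw [map_add, map_add]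
        map_smul' := fun c x => by rw [map_smul, map_smul]; rfl }
    have hψ : ∀ y, ψ y = tr ((β.comp α) y) := fun _ => rfl
    have h1 : (β.comp α) 1 = 1 := by
      rw [← map_one (toUP (M := N) 𝒱), hΘ 1 1 (by rw [map_one, map_one]), map_one]
    have hst : IsTrState ψ := by
      refine ⟨?_, ?_, ?_⟩
      · rw [hψ, h1, tr_one]
      · intro x y
        rw [hψ, hψ, map_mul (β.comp α), map_mul (β.comp α), tr_comm]
      · intro x
        rw [hψ, map_mul (β.comp α), map_star]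
        exact tr_pos _
    rw [tau_one, Complex.ofReal_one, one_mul]
    exact hst.eq a

end Iso

section Good

variable {I J : Type u} [TopologicalSpace I] [DiscreteTopology I] [TopologicalSpace J] [DiscreteTopology J]
  {N K X Y : Type u} [CStarAlgebra N] [TVN N] [FactorII N] [CStarAlgebra K] [TVN K] [FactorII K]

theorem good_step {𝒱 : Ultrafilter I} {𝒲 : Ultrafilter J}
    {Θ : UP N 𝒱 →⋆ₙₐ[ℂ] UP K 𝒲} (hΘ : CornerMap Θ (1 : UP K 𝒲)) {r : ℝ} (hK : Lv N K r) {s : ℝ} (hs : 0 < s) :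
    Good N s ↔ Good N (r * s) := by
  obtain ⟨X, _, _, _, hX⟩ := lv_exists N hs
  obtain ⟨Y, _, _, _, hY⟩ := lv_exists K hs
  have h1 := level_le hΘ tau_one hX hY
  have h2 := lv_comp hK hY
  constructor
  · intro h
    exact ⟨Y, inferInstance, inferInstance, inferInstance, h2, h1.1 (h.of hX)⟩
  · intro h
    exact ⟨X, inferInstance, inferInstance, inferInstance, hX, h1.2 (h.of h2)⟩

theorem good_iter {𝒱 : Ultrafilter I} {𝒲 : Ultrafilter J}
    {Θ : UP N 𝒱 →⋆ₙₐ[ℂ] UP K 𝒲} (hΘ : CornerMap Θ (1 : UP K 𝒲)) {r : ℝ} (hK : Lv N K r) {s : ℝ} (hs : 0 < s)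
    (k : ℕ) : Good N s ↔ Good N (r ^ k * s) := by
  have hr := hK.rel.pos
  induction k with
  | zero => rw [pow_zero, one_mul]
  | succ k ih =>
    have h1 := good_step hΘ hK (by positivity : 0 < r ^ k * s)
    rw [← mul_assoc, ← pow_succ'] at h1
    exact ih.trans h1

theorem good_all {𝒱 : Ultrafilter I} {𝒲 : Ultrafilter J}
    {Θ : UP N 𝒱 →⋆ₙₐ[ℂ] UP K 𝒲} (hΘ : CornerMap Θ (1 : UP K 𝒲)) {r : ℝ} (hr1 : r ≠ 1) (hK : Lv N K r)
    {s t : ℝ} (hs : 0 < s) (ht : 0 < t) (h : Good N s) : Good N t := by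
  have hr := hK.rel.pos
  rcases lt_or_gt_of_ne hr1 with h1 | h1
  · obtain ⟨k, hk⟩ := exists_pow_lt_of_lt_one (div_pos ht hs) h1
    refine ((good_iter hΘ hK hs k).1 h).mono ?_
    rw [lt_div_iff₀ hs] at hk
    exact hk.le
  · obtain ⟨k, hk⟩ := pow_unbounded_of_one_lt (s / t) h1
    have h2 : Good N (s / r ^ k) := by
      refine (good_iter hΘ hK (by positivity : 0 < s / r ^ k) k).2 ?_
      rw [mul_div_cancel₀ _ (by positivity : r ^ k ≠ 0)]
      exact h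
    refine h2.mono ?_
    rw [div_lt_iff₀ ht] at hk
    rw [div_le_iff₀ (by positivity)]
    linarith

end Good

end GU

/-- ultrapowers exist -/
theorem exists_isUltrapower {I N : Type u} [TopologicalSpace I] [DiscreteTopology I] [CStarAlgebra N] {τ : N →ₗ[ℂ] ℂ}
    (hN : IsII₁Factor N τ) (𝒱 : Ultrafilter I) : ∃ (Q : Type u) (_ : CStarAlgebra Q), IsUltrapower 𝒱 τ Q := by
  let _ := hN.toTVN
  exact ⟨GU.UP N 𝒱, inferInstance, GU.toUP 𝒱, GU.toUP_surjective 𝒱, fun x => GU.toUP_eq_zero_iff 𝒱 x⟩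

section

variable {I J : Type u} [TopologicalSpace I] [DiscreteTopology I] [TopologicalSpace J] [DiscreteTopology J]
  {N K M Q : Type u} [CStarAlgebra N] [CStarAlgebra K] [CStarAlgebra M] [CStarAlgebra Q]
  {τ : N →ₗ[ℂ] ℂ} {κ : K →ₗ[ℂ] ℂ} {σ : M →ₗ[ℂ] ℂ} {𝒰 : Ultrafilter ℕ} {𝒱 : Ultrafilter I} {𝒲 : Ultrafilter J}

/-- `N` and `N^r` have isomorphic ultrapowers -/
theorem main_ultra (h𝒰 : ∀ k : ℕ, 𝒰 ≠ pure k)
    (hN : IsII₁Factor N τ) (hK : IsII₁Factor K κ) (hM : IsII₁Factor M σ) (hsep : IsSeparable₂ τ) {r : ℝ}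
    (hr : r ≠ 1) (hNK : IsAmplification N τ K r) (h1 : IsUltrapower 𝒱 τ Q) (h2 : IsUltrapower 𝒲 κ Q)
    {t : ℝ} (h : IsAmplification N τ M t) : numOrbits 𝒰 σ = numOrbits 𝒰 τ := by
  let _ := hN.toTVN
  have _ := hN.toFactorII
  let _ := hK.toTVN
  have _ := hK.toFactorII
  let _ := hM.toTVN
  have _ := hM.toFactorII
  obtain ⟨Θ, hΘ⟩ := GU.exists_iso (N := N) (K := K) h1 h2
  have hK' : UF.Lv N K r := UF.lv_of_rel (IsAmplification.rel hNK)
  have hM' : UF.Lv N M t := UF.lv_of_rel (IsAmplification.rel h)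
  have ht := hM'.rel.pos
  refine numOrbits_eq_of (le_atTop_of_ne_pure h𝒰) (separable_of_amplification h hsep) hsep ⟨fun ho => ?_, fun ho => ?_⟩
  · exact (GU.good_all hΘ hr hK' one_pos ht ⟨N, _, _, inferInstance, UF.lv_self, ho⟩).of hM'
  · exact (GU.good_all hΘ hr hK' ht one_pos ⟨M, _, _, inferInstance, hM', ho⟩).of UF.lv_self

/-- the case of principal ultrafilters: factors with nontrivial fundamental group -/
theorem main_ultra_fundamental (h𝒰 : ∀ k : ℕ, 𝒰 ≠ pure k) (hN : IsII₁Factor N τ) (hM : IsII₁Factor M σ)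
    (hsep : IsSeparable₂ τ) {r : ℝ} (hr : r ≠ 1) (hNN : IsAmplification N τ N r) {t : ℝ}
    (h : IsAmplification N τ M t) : numOrbits 𝒰 σ = numOrbits 𝒰 τ := by
  obtain ⟨Q, _, hQ⟩ := exists_isUltrapower (I := PUnit.{u + 1}) hN (pure PUnit.unit)
  exact main_ultra h𝒰 hN hN hM hsep hr hNN hQ hQ h

end

end SCO
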