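import Pool.Agent.Work.MP_52dd0f_uf.GU1

/-!
# The tracial ultrapower along an ultrafilter on an arbitrary set is a tracial von Neumann algebra
-/

set_option autoImplicit false
set_option linter.unusedSectionVars false

namespace SCO

namespace GU

open Filter Topology
open scoped ComplexOrder ComplexConjugate BoundedContinuousFunction InnerProductSpace

universe u

section Ultra

variable {I : Type u} [TopologicalSpace I] [DiscreteTopology I] {M : Type u} [CStarAlgebra M] [TrC M] (𝒰 : Ultrafilter I)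

instance : Nontrivial (HS M 𝒰) := by
  refine ⟨⟨vec 𝒰 1, 0, fun h => ?_⟩⟩
  have h1 := norm_vec_sq 𝒰 (1 : Sq I M)
  rw [h, star_one, mul_one, phi_one] at h1
  simp at h1


theorem rep_continuous : Continuous (rep (M := M) 𝒰) := starHom_continuous (rep 𝒰)

theorem norm_rep_le (x : Sq I M) : ‖rep 𝒰 x‖ ≤ ‖x‖ := starHom_norm_le (rep 𝒰) x

/-- every element of the image with norm at most one has a lift with norm at most one -/
theorem exists_lift {x : Sq I M} (hx : ‖rep 𝒰 x‖ ≤ 1) : ∃ x' : Sq I M, ‖x'‖ ≤ 1 ∧ rep 𝒰 x' = rep 𝒰 x := by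
  refine ⟨x * cfc cutf (star x * x), norm_mul_cfc_cutf_le x, ?_⟩
  have hφa : IsSelfAdjoint (rep 𝒰 (star x * x)) := by
    rw [map_mul, map_star]
    exact IsSelfAdjoint.star_mul_self _
  have h1 : rep 𝒰 (cfc cutf (star x * x)) = cfc cutf (rep 𝒰 (star x * x)) :=
    StarAlgHom.map_cfc (rep 𝒰) cutf (star x * x) cutf_cont.continuousOn (rep_continuous 𝒰)
      (IsSelfAdjoint.star_mul_self x) hφa
  rw [map_mul, h1, map_mul, map_star, cfc_cutf_of_norm_le hx, mul_one]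

theorem exists_lift' (x : Sq I M) : ∃ x' : Sq I M, ‖x'‖ ≤ ‖rep 𝒰 x‖ ∧ rep 𝒰 x' = rep 𝒰 x := by
  rcases eq_or_ne (rep 𝒰 x) 0 with h | h
  · exact ⟨0, by rw [h]; simp, by rw [map_zero, h]⟩
  · have hpos : 0 < ‖rep 𝒰 x‖ := norm_pos_iff.2 h
    obtain ⟨y, hy1, hy2⟩ := exists_lift 𝒰 (x := ((‖rep 𝒰 x‖⁻¹ : ℝ) : ℂ) • x) (by
      rw [map_smul, norm_smul, Complex.norm_real, Real.norm_of_nonneg (by positivity),
        inv_mul_cancel₀ hpos.ne'])
    refine ⟨((‖rep 𝒰 x‖ : ℝ) : ℂ) • y, ?_, ?_⟩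
    · rw [norm_smul, Complex.norm_real, Real.norm_of_nonneg hpos.le]
      exact mul_le_of_le_one_right hpos.le hy1
    · rw [map_smul, hy2, map_smul, smul_smul, ← Complex.ofReal_mul, mul_inv_cancel₀ hpos.ne',
        Complex.ofReal_one, one_smul]

theorem isClosed_range : IsClosed ((rep (M := M) 𝒰).range : Set (HS M 𝒰 →L[ℂ] HS M 𝒰)) := by
  let f : NormedAddGroupHom (Sq I M) (HS M 𝒰 →L[ℂ] HS M 𝒰) :=
    { toFun := rep 𝒰
      map_add' := fun x y => map_add _ x y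
      bound' := ⟨1, fun x => by rw [one_mul]; exact norm_rep_le 𝒰 x⟩ }
  let K : AddSubgroup (HS M 𝒰 →L[ℂ] HS M 𝒰) := f.range
  have hyp : f.SurjectiveOnWith K 1 := by
    rintro _ ⟨x, rfl⟩
    obtain ⟨x', h1, h2⟩ := exists_lift' 𝒰 x
    exact ⟨x', h2, by rw [one_mul]; exact h1⟩
  have h2 := controlled_closure_of_complete one_pos one_pos hyp
  have hKe : (K : Set (HS M 𝒰 →L[ℂ] HS M 𝒰)) = ((rep (M := M) 𝒰).range : Set _) := by
    ext y; constructor
    · rintro ⟨x, rfl⟩; exact ⟨x, rfl⟩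
    · rintro ⟨x, rfl⟩; exact ⟨x, rfl⟩
  rw [← hKe]
  refine isClosed_of_closure_subset fun y hy => ?_
  obtain ⟨x, hx, -⟩ := h2 y hy
  exact ⟨x, hx⟩

/-- The tracial ultrapower. -/
def UP {I : Type u} [TopologicalSpace I] (M : Type u) [CStarAlgebra M] [TrC M] (𝒰 : Ultrafilter I) : Type u :=
  ↥((rep (M := M) 𝒰).range)

noncomputable instance : CStarAlgebra (UP M 𝒰) :=
  StarSubalgebra.cstarAlgebra (rep (M := M) 𝒰).range (h_closed := isClosed_range 𝒰)

/-- the class of a bounded sequence -/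
noncomputable def toUP : Sq I M →⋆ₐ[ℂ] UP M 𝒰 := (rep 𝒰).rangeRestrict

/-- the inclusion in bounded operators -/
def UP.val (x : UP M 𝒰) : HS M 𝒰 →L[ℂ] HS M 𝒰 := Subtype.val x

theorem UP.val_injective : Function.Injective (UP.val (M := M) 𝒰) := Subtype.val_injective

theorem UP.val_toUP (x : Sq I M) : UP.val 𝒰 (toUP 𝒰 x) = rep 𝒰 x := rfl

theorem toUP_surjective : Function.Surjective (toUP (M := M) 𝒰) := by
  rintro ⟨_, ⟨x, rfl⟩⟩
  exact ⟨x, rfl⟩

theorem toUP_eq_iff (x y : Sq I M) : toUP 𝒰 x = toUP 𝒰 y ↔ Eq2 (𝒰 : Filter I) x.ev y.ev := by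
  rw [← rep_eq_iff, ← UP.val_toUP, ← UP.val_toUP]
  exact (UP.val_injective 𝒰).eq_iff.symm

theorem UP.norm_def (x : UP M 𝒰) : ‖x‖ = ‖UP.val 𝒰 x‖ := rfl

theorem exists_lift_UP (y : UP M 𝒰) : ∃ x : Sq I M, ‖x‖ ≤ ‖y‖ ∧ toUP 𝒰 x = y := by
  obtain ⟨x, rfl⟩ := toUP_surjective 𝒰 y
  obtain ⟨x', h1, h2⟩ := exists_lift' 𝒰 x
  exact ⟨x', h1, UP.val_injective 𝒰 h2⟩

/-- the trace on the ultrapower -/
noncomputable def trUP : UP M 𝒰 →ₗ[ℂ] ℂ where
  toFun x := trU 𝒰 (UP.val 𝒰 x)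
  map_add' x y := map_add (trU 𝒰) (UP.val 𝒰 x) (UP.val 𝒰 y)
  map_smul' c x := map_smul (trU 𝒰) c (UP.val 𝒰 x)

theorem trUP_toUP (x : Sq I M) : trUP 𝒰 (toUP 𝒰 x) = phi 𝒰 x := trU_rep 𝒰 x

noncomputable instance : TrC (UP M 𝒰) where
  tr := trUP 𝒰
  tr_one := by
    rw [← map_one (toUP (M := M) 𝒰), trUP_toUP, phi_one]
  tr_comm x y := by
    obtain ⟨x, rfl⟩ := toUP_surjective 𝒰 x
    obtain ⟨y, rfl⟩ := toUP_surjective 𝒰 y
    rw [← map_mul, ← map_mul, trUP_toUP, trUP_toUP, phi_comm]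
  tr_pos x := by
    obtain ⟨x, rfl⟩ := toUP_surjective 𝒰 x
    rw [← map_star, ← map_mul, trUP_toUP]
    exact phi_nonneg 𝒰 x
  tr_faithful x h := by
    obtain ⟨x, rfl⟩ := toUP_surjective 𝒰 x
    rw [← map_star, ← map_mul, trUP_toUP] at h
    have h1 := phi_star_mul 𝒰 x
    rw [h, Complex.zero_re] at h1
    have h2 := h1.sqrt
    rw [Real.sqrt_zero] at h2
    have h3 : Tendsto (fun k => n2 (x.ev k)) (𝒰 : Filter I) (𝓝 0) :=
      h2.congr fun k => Real.sqrt_sq (n2_nonneg _)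
    rw [← map_zero (toUP (M := M) 𝒰), toUP_eq_iff]
    exact h3.congr fun k => by
      show n2 (x.ev k) = n2 (x.ev k - 0)
      rw [sub_zero]

theorem tr_toUP (x : Sq I M) : tr (toUP 𝒰 x) = phi 𝒰 x := trUP_toUP 𝒰 x

theorem tendsto_tr_toUP (x : Sq I M) :
    Tendsto (fun k => tr (x.ev k)) (𝒰 : Filter I) (𝓝 (tr (toUP 𝒰 x))) := by
  rw [tr_toUP]; exact phi_spec 𝒰 x

theorem tendsto_n2_toUP (x : Sq I M) :
    Tendsto (fun k => n2 (x.ev k)) (𝒰 : Filter I) (𝓝 (n2 (toUP 𝒰 x))) := by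
  have h1 := phi_star_mul 𝒰 x
  rw [← trUP_toUP, map_mul, map_star] at h1
  have h2 := h1.sqrt
  have h3 : Real.sqrt (trUP 𝒰 (star (toUP 𝒰 x) * toUP 𝒰 x)).re = n2 (toUP 𝒰 x) := rfl
  rw [h3] at h2
  exact h2.congr fun k => Real.sqrt_sq (n2_nonneg _)

end Ultra

section Complete

variable {I : Type u} [TopologicalSpace I] [DiscreteTopology I] {M : Type u} [CStarAlgebra M] [TVN M] (𝒰 : Ultrafilter I)

/-- the limit of a sequence, or its last good term -/
theorem exists_stop {a : ℕ → M} (ha : ∀ i, ‖a i‖ ≤ 1) :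
    ∃ z : M, ‖z‖ ≤ 1 ∧ ∀ i, (∀ j < i, n2 (a (j + 1) - a j) < (1 / 2) ^ j) → n2 (z - a i) ≤ 2 * (1 / 2) ^ i := by
  classical
  -- telescoping
  have key : ∀ i j, (∀ k < i + j, n2 (a (k + 1) - a k) < (1 / 2) ^ k) →
      n2 (a (i + j) - a i) ≤ 2 * (1 / 2) ^ i * (1 - (1 / 2) ^ j) := by
    intro i j
    induction j with
    | zero => intro _; simp
    | succ j ih =>
      intro hj
      have h3 := ih fun k hk => hj k (by omega)
      have h4 := hj (i + j) (by omega)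
      have h5 := n2_triangle (a (i + j + 1)) (a (i + j)) (a i)
      rw [← add_assoc]
      calc n2 (a (i + j + 1) - a i) ≤ (1 / 2) ^ (i + j) +
            2 * (1 / 2) ^ i * (1 - (1 / 2) ^ j) := by linarith
        _ = _ := by rw [pow_add, pow_succ]; ring
  have key' : ∀ i j, i ≤ j → (∀ k < j, n2 (a (k + 1) - a k) < (1 / 2) ^ k) →
      n2 (a j - a i) ≤ 2 * (1 / 2) ^ i := by
    intro i j hij hj
    obtain ⟨m, rfl⟩ := Nat.exists_eq_add_of_le hij
    refine (key i m hj).trans ?_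
    have h6 : (0 : ℝ) ≤ (1 / 2) ^ m := by positivity
    have h7 : (0 : ℝ) ≤ 2 * (1 / 2) ^ i := by positivity
    nlinarith
  by_cases hall : ∀ j, n2 (a (j + 1) - a j) < (1 / 2) ^ j
  · obtain ⟨z, hz1, hz⟩ := exists_limit ha (fun ε hε => by
      obtain ⟨i, hi⟩ := exists_pow_lt_of_lt_one (show (0 : ℝ) < ε / 4 by positivity)
        (show (1 / 2 : ℝ) < 1 by norm_num)
      refine ⟨i, fun k hk l hl => ?_⟩
      have h1 := key' i k hk fun j _ => hall j
      have h2 := key' i l hl fun j _ => hall j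
      have h3 := n2_triangle (a k) (a i) (a l)
      rw [n2_sub_comm (a i)] at h3
      linarith)
    refine ⟨z, hz1, fun i _ => ?_⟩
    have h1 := (hz.sub (T2.const (a i))).n2
    refine le_of_tendsto h1 ?_
    filter_upwards [eventually_ge_atTop i] with k hk
    exact key' i k hk fun j _ => hall j
  · push Not at hall
    refine ⟨a (Nat.find hall), ha _, fun i hi => key' i _ ?_ fun j hj => ?_⟩
    · by_contra h
      push Not at h
      exact absurd (hi _ h) (not_lt.2 (Nat.find_spec hall))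
    · exact not_le.1 (Nat.find_min hall hj)

theorem UP.complete1 (y : ℕ → UP M 𝒰) (hy : ∀ k, ‖y k‖ ≤ 1)
    (hc : ∀ ε > 0, ∃ K, ∀ k ≥ K, ∀ l ≥ K, n2 (y k - y l) < ε) : ∃ z : UP M 𝒰, T2 atTop y z := by
  classical
  choose x hx1 hx2 using fun j => exists_lift_UP 𝒰 (y j)
  have hlim : ∀ i j, Tendsto (fun k => n2 ((x i).ev k - (x j).ev k)) (𝒰 : Filter I)
      (𝓝 (n2 (y i - y j))) := fun i j => by
    have := tendsto_n2_toUP 𝒰 (x i - x j)
    rw [map_sub, hx2, hx2] at this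
    exact this
  choose K hK using fun m : ℕ => hc ((1 / 2) ^ m) (by positivity)
  -- monotone subsequence
  let J : ℕ → ℕ := fun m => (Finset.range (m + 1)).sup K
  have hJK : ∀ m, K m ≤ J m := fun m =>
    Finset.le_sup (f := K) (Finset.mem_range.2 (Nat.lt_succ_self m))
  have hJmono : ∀ m, J m ≤ J (m + 1) := fun m =>
    Finset.sup_mono (Finset.range_mono (Nat.le_succ _))
  have hstep : ∀ i, ∀ᶠ k in (𝒰 : Filter I),
      n2 ((x (J (i + 1))).ev k - (x (J i)).ev k) < (1 / 2) ^ i :=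
    fun i => (tendsto_order.1 (hlim _ _)).2 _
      (hK i _ ((hJK i).trans (hJmono i)) _ (hJK i))
  have hst : ∀ k : I, ∃ z : M, ‖z‖ ≤ 1 ∧ ∀ i, (∀ j < i, n2 ((x (J (j + 1))).ev k - (x (J j)).ev k) < (1 / 2) ^ j) →
      n2 (z - (x (J i)).ev k) ≤ 2 * (1 / 2) ^ i := fun k =>
    exists_stop (a := fun i => (x (J i)).ev k) fun i => (((x (J i)).norm_ev_le k).trans ((hx1 _).trans (hy _)))
  choose zz hzz1 hzz2 using hst
  let z : Sq I M := Sq.mk zz 1 hzz1
  refine ⟨toUP 𝒰 z, ?_⟩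
  have hbound : ∀ i, n2 (toUP 𝒰 z - y (J i)) ≤ 2 * (1 / 2) ^ i := by
    intro i
    have h1 := tendsto_n2_toUP 𝒰 (z - x (J i))
    rw [map_sub, hx2] at h1
    refine le_of_tendsto h1 ?_
    have h2 : ∀ᶠ k in (𝒰 : Filter I), ∀ j ∈ Finset.range i,
        n2 ((x (J (j + 1))).ev k - (x (J j)).ev k) < (1 / 2) ^ j :=
      (Filter.eventually_all_finset _).2 fun j _ => hstep j
    filter_upwards [h2] with k hk
    exact hzz2 k i fun j hj => hk j (Finset.mem_range.2 hj)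
  unfold T2
  rw [Metric.tendsto_atTop]
  intro ε hε
  obtain ⟨i, hi⟩ := exists_pow_lt_of_lt_one (show (0 : ℝ) < ε / 3 by positivity)
    (show (1 / 2 : ℝ) < 1 by norm_num)
  refine ⟨J i, fun n hn => ?_⟩
  rw [Real.dist_eq, sub_zero, abs_of_nonneg (n2_nonneg _)]
  have h1 := hK i n ((hJK i).trans hn) (J i) (hJK i)
  have h2 := hbound i
  have h3 := n2_triangle (y n) (y (J i)) (toUP 𝒰 z)
  rw [n2_sub_comm (y (J i))] at h3
  linarith

/-- The tracial ultrapower of a tracial von Neumann algebra is a tracial von Neumann algebra. -/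
noncomputable instance instTVNUP : TVN (UP M 𝒰) where
  complete1 := UP.complete1 𝒰

end Complete

section Emb

variable {I : Type u} [TopologicalSpace I] [DiscreteTopology I] {M : Type u} [CStarAlgebra M] [TrC M] (𝒰 : Ultrafilter I)

/-- constant sequences -/
noncomputable def cstSq : M →⋆ₐ[ℂ] Sq I M where
  toFun a := Sq.mk (fun _ => a) ‖a‖ fun _ => le_rfl
  map_one' := rfl
  map_mul' _ _ := rfl
  map_zero' := rfl
  map_add' _ _ := rfl
  commutes' _ := rfl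
  map_star' _ := rfl

/-- the embedding of `M` in its ultrapower -/
noncomputable def iU : M →⋆ₐ[ℂ] UP M 𝒰 := (toUP 𝒰).comp cstSq

theorem tr_iU (a : M) : tr (iU 𝒰 a) = tr a := by
  have h := tendsto_tr_toUP 𝒰 (cstSq a)
  exact tendsto_nhds_unique h tendsto_const_nhds

theorem n2_iU (a : M) : n2 (iU 𝒰 a) = n2 a := by
  have h := tendsto_n2_toUP 𝒰 (cstSq a)
  exact tendsto_nhds_unique h tendsto_const_nhds

end Emb

end GU

end SCO
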