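import Pool.Agent.Work.MP_52dd0f_nd.All

/-!
# Approximate Haar unitaries are close to conjugates of a given Haar unitary
-/

set_option autoImplicit false
set_option linter.unusedSectionVars false

namespace SCO

open Filter Topology

universe u

namespace UF

open ND

variable {M : Type u} [CStarAlgebra M] [TVN M] [FactorII M]

theorem pert {u : M} (hu : HaarU u) {ε : ℝ} (hε : 0 < ε) : ∃ δ > 0, ∃ l : ℕ, ∀ w : M, ApproxHaar δ l w →
    ∃ g : M, star g * g = 1 ∧ g * star g = 1 ∧ n2 (g * u * star g - w) < ε := by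
  classical
  by_contra hcon
  push Not at hcon
  have hδ : ∀ k : ℕ, (0 : ℝ) < 1 / ((k : ℝ) + 1) := fun k => by positivity
  choose w hw hwg using fun k : ℕ => hcon (1 / ((k : ℝ) + 1)) (hδ k) k
  let 𝒰 : Ultrafilter ℕ := hyperfilter ℕ
  have h𝒰 : (𝒰 : Filter ℕ) ≤ atTop := Nat.hyperfilter_le_atTop
  have hF : Fact ((𝒰 : Filter ℕ) ≤ atTop) := ⟨h𝒰⟩
  have ht : Tendsto (fun k : ℕ => 1 / ((k : ℝ) + 1)) (𝒰 : Filter ℕ) (𝓝 0) :=
    tendsto_one_div_add_atTop_nhds_zero_nat.mono_left h𝒰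
  let y : Sq M := Sq.mk w 1 fun k => (hw k).norm_le
  have hy : HaarU (toUP 𝒰 y) := by
    rw [haarU_toUP_iff]
    have key : ∀ m : ℕ, m ≠ 0 → Tendsto (fun k => tr (w k ^ m)) (𝒰 : Filter ℕ) (𝓝 0) := by
      intro m hm
      rw [tendsto_zero_iff_norm_tendsto_zero]
      refine squeeze_zero' (Eventually.of_forall fun _ => norm_nonneg _) ?_ ht
      have : ∀ᶠ k in (𝒰 : Filter ℕ), m ≤ k := h𝒰 (eventually_ge_atTop m)
      filter_upwards [this] with k hk
      exact ((hw k).haar m (Nat.one_le_iff_ne_zero.2 hm) hk).le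
    refine ⟨⟨1, fun k => (hw k).norm_le⟩, ?_, ?_, fun m hm => ⟨key m hm, ?_⟩⟩
    · exact squeeze_zero (fun _ => n2_nonneg _) (fun k => (hw k).isom.le) ht
    · exact squeeze_zero (fun _ => n2_nonneg _) (fun k => (hw k).coisom.le) ht
    · have := (Complex.continuous_conj.tendsto _).comp (key m hm)
      rw [map_zero] at this
      refine this.congr fun k => ?_
      rw [Function.comp_apply, ← tr_star, star_pow]; rfl
  have hiu : HaarU (iU 𝒰 u) := by
    refine ⟨?_, ?_, fun j hj => ?_⟩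
    · rw [← map_star, ← map_mul, hu.isom, map_one]
    · rw [← map_star, ← map_mul, hu.coisom, map_one]
    · rw [← map_pow, tr_iU]; exact hu.haar j hj
  obtain ⟨g, hg1, hg2, hg⟩ := a_SAA M 𝒰 (iU 𝒰 u) (toUP 𝒰 y) hiu hy
  obtain ⟨x, hx, hxu⟩ := a_ULF M 𝒰 g hg1
  have h1 := tendsto_n2_toUP 𝒰 (x * cstSq u * star x - y)
  have h2 : toUP 𝒰 (x * cstSq u * star x - y) = 0 := by
    rw [map_sub, map_mul, map_mul, map_star, hx, sub_eq_zero]
    exact hg
  rw [h2, n2_zero] at h1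
  obtain ⟨k, hk⟩ := ((tendsto_order.1 h1).2 _ hε).exists
  exact absurd hk (not_lt.2 (hwg k (x.ev k) (hxu k).1 (hxu k).2))

end UF

end SCO
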