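import Pool.Agent.Work.MP_52dd0f_uf.Gen
import Pool.Agent.Work.MP_52dd0f_uf.Pert
import Pool.Agent.Work.MP_52dd0f_uf.GU2

/-!
# The ultrapower along an arbitrary ultrafilter: it is a factor, orbits, corners, matrices
-/

set_option autoImplicit false
set_option linter.unusedSectionVars false

namespace SCO

open Filter Topology

universe u

namespace GU

open ND UF

section Fac

variable {I : Type u} [TopologicalSpace I] [DiscreteTopology I]

theorem sq_ext {M : Type u} [CStarAlgebra M] {x y : Sq I M} (h : ∀ k, x.ev k = y.ev k) : x = y :=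
  BoundedContinuousFunction.ext h

/-- the ultrapower of a factor is a factor -/
theorem fac (M : Type u) [CStarAlgebra M] [TVN M] [FactorII M] (𝒰 : Ultrafilter I) : FactorII (UP M 𝒰) := by
  refine ⟨?_, ?_⟩
  · intro z hz
    obtain ⟨x, -, rfl⟩ := exists_lift_UP 𝒰 z
    have hw : ∀ k, ∃ w : M, star w * w = 1 ∧ w * star w = 1 ∧
        n2 (x.ev k - (tr (x.ev k) : ℂ) • (1 : M)) ≤ 2 * n2 (w * x.ev k * star w - x.ev k) :=
      fun k => a_AVU M (x.ev k)
    choose w hw1 hw2 hw3 using hw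
    set W : Sq I M := Sq.mk w 1 (fun k => norm_le_one_of_star_mul (hw1 k)) with hW
    have hWev : ∀ k, W.ev k = w k := fun k => rfl
    have hWW : W * star W = 1 := by
      refine sq_ext fun k => ?_
      exact hw2 k
    have h1 : toUP 𝒰 (W * x * star W - x) = 0 := by
      rw [map_sub, map_mul, map_mul, ← hz, mul_assoc, ← map_mul, hWW, map_one, mul_one, sub_self]
    have h2 := tendsto_n2_toUP 𝒰 (W * x * star W - x)
    rw [h1, n2_zero] at h2
    have h3 : Tendsto (fun k => n2 (x.ev k - (tr (x.ev k) : ℂ) • (1 : M))) (𝒰 : Filter I) (𝓝 0) := by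
      have h4 := h2.const_mul 2
      rw [mul_zero] at h4
      exact squeeze_zero (fun _ => n2_nonneg _) (fun k => hw3 k) h4
    have h5 := tendsto_tr_toUP 𝒰 x
    have h6 : Tendsto (fun k => n2 ((tr (x.ev k) : ℂ) • (1 : M) - (tr (toUP 𝒰 x) : ℂ) • (1 : M))) (𝒰 : Filter I)
        (𝓝 0) := by
      have h7 := (tendsto_iff_norm_sub_tendsto_zero.1 h5)
      have h8 := h7.mul_const (n2 (1 : M))
      rw [zero_mul] at h8
      refine h8.congr fun k => ?_
      rw [← sub_smul, n2_smul]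
    have h9 : Tendsto (fun k => n2 ((x - (tr (toUP 𝒰 x) : ℂ) • (1 : Sq I M)).ev k)) (𝒰 : Filter I) (𝓝 0) := by
      have h10 := h3.add h6
      rw [add_zero] at h10
      refine squeeze_zero (fun _ => n2_nonneg _) (fun k => ?_) h10
      rw [Sq.ev_sub, Sq.ev_smul, Sq.ev_one]
      have : x.ev k - (tr (toUP 𝒰 x) : ℂ) • (1 : M) = (x.ev k - (tr (x.ev k) : ℂ) • (1 : M)) +
          ((tr (x.ev k) : ℂ) • (1 : M) - (tr (toUP 𝒰 x) : ℂ) • (1 : M)) := by abel
      rw [this]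
      exact n2_add_le _ _
    have h11 := tendsto_n2_toUP 𝒰 (x - (tr (toUP 𝒰 x) : ℂ) • (1 : Sq I M))
    have h12 := tendsto_nhds_unique h11 h9
    refine ⟨tr (toUP 𝒰 x), ?_⟩
    have h13 := n2_eq_zero.1 h12
    rw [map_sub, map_smul, map_one] at h13
    exact sub_eq_zero.1 h13
  · intro hfin
    apply FactorII.infinite (M := M)
    refine FiniteDimensional.of_injective (V₂ := UP M 𝒰) ((iU 𝒰 : M →⋆ₐ[ℂ] UP M 𝒰) : M →ₐ[ℂ] UP M 𝒰).toLinearMap ?_
    intro a b hab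
    have h1 : iU 𝒰 (a - b) = 0 := by
      rw [map_sub]; exact sub_eq_zero.2 hab
    have h2 := n2_iU 𝒰 (a - b)
    rw [h1, n2_zero] at h2
    exact sub_eq_zero.1 (n2_eq_zero.1 h2.symm)

end Fac

section Orbit

variable {I : Type u} [TopologicalSpace I] [DiscreteTopology I] {M : Type u} [CStarAlgebra M] [TVN M] [FactorII M]
  (𝒰 : Ultrafilter I)

theorem haarU_iU {u : M} (h : HaarU u) : HaarU (iU 𝒰 u) := by
  refine ⟨?_, ?_, fun j hj => ?_⟩
  · rw [← map_star, ← map_mul, h.isom, map_one]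
  · rw [← map_star, ← map_mul, h.coisom, map_one]
  · rw [← map_pow, tr_iU, h.haar j hj]

/-- chains in the ultrapower, entry by entry -/
theorem conn_toUP {n : ℕ} {u : M} (V : Sq I M) (h : ∀ k, Conn n u (V.ev k)) :
    Conn n (iU 𝒰 u) (toUP 𝒰 V) := by
  intro ε hε l
  have hε2 : ε / 2 < ε := half_lt_self hε
  choose w h0 h1 h2 h3 using fun k : I => h k (ε / 2) (half_pos hε) l
  let z : ℕ → Sq I M := fun i => Sq.mk (fun k => w k i) 1 fun k => (h2 k i).norm_le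
  have hz : ∀ i k, (z i).ev k = w k i := fun i k => rfl
  refine ⟨fun i => toUP 𝒰 (z i), ?_, ?_, fun i => ⟨?_, ?_, ?_, fun j hj hjl => ?_⟩, fun i hi => ?_⟩
  · show toUP 𝒰 (z 0) = toUP 𝒰 (cstSq u)
    congr 1
    exact sq_ext fun k => h0 k
  · show toUP 𝒰 (z (n + 1)) = toUP 𝒰 V
    congr 1
    exact sq_ext fun k => h1 k
  · have hn : ‖z i‖ ≤ 1 := by
      refine (BoundedContinuousFunction.norm_le zero_le_one).2 fun k => ?_
      exact (h2 k i).norm_le
    exact (starHom_norm_le (toUP 𝒰) (z i)).trans hn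
  · have := tendsto_n2_toUP 𝒰 (star (z i) * z i - 1)
    rw [map_sub, map_mul, map_star, map_one] at this
    exact (le_of_tendsto' this fun k => (h2 k i).isom.le).trans_lt hε2
  · have := tendsto_n2_toUP 𝒰 (z i * star (z i) - 1)
    rw [map_sub, map_mul, map_star, map_one] at this
    exact (le_of_tendsto' this fun k => (h2 k i).coisom.le).trans_lt hε2
  · have := (tendsto_tr_toUP 𝒰 (z i ^ j)).norm
    rw [map_pow] at this
    refine (le_of_tendsto' this fun k => ?_).trans_lt hε2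
    rw [Sq.ev_pow]
    exact ((h2 k i).haar j hj hjl).le
  · have := tendsto_n2_toUP 𝒰 (z i * z (i + 1) - z (i + 1) * z i)
    rw [map_sub, map_mul, map_mul] at this
    exact (le_of_tendsto' this fun k => (h3 k i hi).le).trans_lt hε2

/-- if all unitaries of `M` stabilize `u` with chains of length `L` then all Haar unitaries of the ultrapower are connected -/
theorem conn_base {u : M} {L : ℕ} (hu : HaarU u) (hL : ∀ g : UG M, g ∈ Stb u L) {W : UP M 𝒰} (hW : HaarU W) :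
    Conn L (iU 𝒰 u) W := by
  classical
  refine Conn.of_close (haarU_iU 𝒰 hu) hW fun ε hε => ?_
  obtain ⟨δ, hδ, l, hpert⟩ := UF.pert hu (half_pos hε)
  obtain ⟨x, hx, rfl⟩ := exists_lift_UP 𝒰 W
  have hch : ∀ k, ∃ g : M, star g * g = 1 ∧ g * star g = 1 ∧
      (ApproxHaar δ l (x.ev k) → n2 (g * u * star g - x.ev k) < ε / 2) := by
    intro k
    by_cases hk : ApproxHaar δ l (x.ev k)
    · obtain ⟨g, h1, h2, h3⟩ := hpert _ hk
      exact ⟨g, h1, h2, fun _ => h3⟩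
    · exact ⟨1, by simp, by simp, fun h => absurd h hk⟩
  choose g hg1 hg2 hg3 using hch
  let V : Sq I M := Sq.mk (fun k => g k * u * star (g k)) 1 fun k => by
    calc ‖g k * u * star (g k)‖ ≤ ‖g k‖ * ‖u‖ * ‖star (g k)‖ :=
          (norm_mul_le _ _).trans (mul_le_mul_of_nonneg_right (norm_mul_le _ _) (norm_nonneg _))
      _ ≤ 1 * 1 * 1 := by
          gcongr
          · exact norm_le_one_of_star_mul (hg1 k)
          · exact hu.norm_le
          · rw [norm_star]; exact norm_le_one_of_star_mul (hg1 k)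
      _ = 1 := by norm_num
  refine ⟨iU 𝒰 u, toUP 𝒰 V, by rw [sub_self, n2_zero]; exact hε, ?_, conn_toUP 𝒰 V fun k => ?_⟩
  · have hA : ∀ᶠ k in (𝒰 : Filter I), ApproxHaar δ l (x.ev k) := by
      have c1 : ∀ᶠ k in (𝒰 : Filter I), n2 (star (x.ev k) * x.ev k - 1) < δ := by
        have h2 := tendsto_n2_toUP 𝒰 (star x * x - 1)
        rw [map_sub, map_mul, map_star, map_one, hW.isom, sub_self, n2_zero] at h2
        exact (tendsto_order.1 h2).2 _ hδ
      have c2 : ∀ᶠ k in (𝒰 : Filter I), n2 (x.ev k * star (x.ev k) - 1) < δ := by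
        have h2 := tendsto_n2_toUP 𝒰 (x * star x - 1)
        rw [map_sub, map_mul, map_star, map_one, hW.coisom, sub_self, n2_zero] at h2
        exact (tendsto_order.1 h2).2 _ hδ
      have c3 : ∀ᶠ k in (𝒰 : Filter I), ∀ j ∈ Finset.Icc 1 l, ‖tr (x.ev k ^ j)‖ < δ := by
        rw [Filter.eventually_all_finset]
        intro j hj
        have h2 := (tendsto_tr_toUP 𝒰 (x ^ j)).norm
        rw [map_pow, hW.haar j (Finset.mem_Icc.1 hj).1, norm_zero] at h2
        have h3 := (tendsto_order.1 h2).2 _ hδ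
        filter_upwards [h3] with k hk
        rwa [Sq.ev_pow] at hk
      filter_upwards [c1, c2, c3] with k k1 k2 k3
      exact ⟨((x.norm_ev_le k).trans hx).trans hW.norm_le, k1, k2,
        fun j hj1 hj2 => k3 j (Finset.mem_Icc.2 ⟨hj1, hj2⟩)⟩
    have h1 := tendsto_n2_toUP 𝒰 (x - V)
    rw [map_sub] at h1
    refine (le_of_tendsto h1 ?_).trans_lt (half_lt_self hε)
    filter_upwards [hA] with k hk
    show n2 (x.ev k - g k * u * star (g k)) ≤ ε / 2
    rw [n2_sub_comm]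
    exact (hg3 k hk).le
  · exact hL (UG.mk (g k) (hg1 k) (hg2 k))

theorem oneOrbit_up_of (h : OneOrbit M) : OneOrbit (UP M 𝒰) := by
  obtain ⟨u, L, hu, hL⟩ := a_UNF M h
  intro W W' hW hW'
  exact ⟨_, (conn_base 𝒰 hu hL hW).symm.trans (conn_base 𝒰 hu hL hW')⟩

/-- approximate chains in the ultrapower give approximate chains -/
theorem conn_of_conn_iU {n : ℕ} {a b : M} (ha : HaarU a) (hb : HaarU b)
    (h : Conn n (iU 𝒰 a) (iU 𝒰 b)) : Conn n a b := by
  classical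
  intro ε hε l
  obtain ⟨z, h0, h1, hz, hc⟩ := h ε hε l
  have hlift : ∀ i, ∃ x : Sq I M, (i = 0 → x = cstSq a) ∧ (i ≠ 0 → i = n + 1 → x = cstSq b) ∧
      (∀ k, ‖x.ev k‖ ≤ 1) ∧ toUP 𝒰 x = z i := by
    intro i
    by_cases hi0 : i = 0
    · refine ⟨cstSq a, fun _ => rfl, fun h => absurd hi0 h, fun k => ha.norm_le, ?_⟩
      rw [hi0, h0]; rfl
    by_cases hi1 : i = n + 1
    · refine ⟨cstSq b, fun h => absurd h hi0, fun _ _ => rfl, fun k => hb.norm_le, ?_⟩
      rw [hi1, h1]; rfl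
    · obtain ⟨x, hx1, hx2⟩ := exists_lift_UP 𝒰 (z i)
      exact ⟨x, fun h => absurd h hi0, fun _ h => absurd h hi1,
        fun k => ((x.norm_ev_le k).trans hx1).trans (hz i).norm_le, hx2⟩
  choose x hx0 hx1 hxn hxz using hlift
  have hA : ∀ i, ∀ᶠ k in (𝒰 : Filter I), ApproxHaar ε l ((x i).ev k) := by
    intro i
    have c1 : ∀ᶠ k in (𝒰 : Filter I), n2 (star ((x i).ev k) * (x i).ev k - 1) < ε := by
      have h2 := tendsto_n2_toUP 𝒰 (star (x i) * x i - 1)
      rw [map_sub, map_mul, map_star, map_one, hxz] at h2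
      exact (tendsto_order.1 h2).2 _ (hz i).isom
    have c2 : ∀ᶠ k in (𝒰 : Filter I), n2 ((x i).ev k * star ((x i).ev k) - 1) < ε := by
      have h2 := tendsto_n2_toUP 𝒰 (x i * star (x i) - 1)
      rw [map_sub, map_mul, map_star, map_one, hxz] at h2
      exact (tendsto_order.1 h2).2 _ (hz i).coisom
    have c3 : ∀ᶠ k in (𝒰 : Filter I), ∀ j ∈ Finset.Icc 1 l, ‖tr ((x i).ev k ^ j)‖ < ε := by
      rw [Filter.eventually_all_finset]
      intro j hj
      have h2 := tendsto_tr_toUP 𝒰 (x i ^ j)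
      rw [map_pow, hxz] at h2
      have h3 := (tendsto_order.1 h2.norm).2 _ ((hz i).haar j (Finset.mem_Icc.1 hj).1 (Finset.mem_Icc.1 hj).2)
      filter_upwards [h3] with k hk
      rwa [Sq.ev_pow] at hk
    filter_upwards [c1, c2, c3] with k k1 k2 k3
    exact ⟨hxn i k, k1, k2, fun j hj1 hj2 => k3 j (Finset.mem_Icc.2 ⟨hj1, hj2⟩)⟩
  have hB : ∀ i, i ≤ n → ∀ᶠ k in (𝒰 : Filter I),
      n2 ((x i).ev k * (x (i + 1)).ev k - (x (i + 1)).ev k * (x i).ev k) < ε := by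
    intro i hi
    have h2 := tendsto_n2_toUP 𝒰 (x i * x (i + 1) - x (i + 1) * x i)
    rw [map_sub, map_mul, map_mul, hxz, hxz] at h2
    exact (tendsto_order.1 h2).2 _ (hc i hi)
  have hA' : ∀ᶠ k in (𝒰 : Filter I), ∀ i ∈ Finset.range (n + 2), ApproxHaar ε l ((x i).ev k) :=
    (Filter.eventually_all_finset _).2 fun i _ => hA i
  have hB' : ∀ᶠ k in (𝒰 : Filter I), ∀ i ∈ Finset.range (n + 1),
      n2 ((x i).ev k * (x (i + 1)).ev k - (x (i + 1)).ev k * (x i).ev k) < ε :=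
    (Filter.eventually_all_finset _).2 fun i hi => hB i (by have := Finset.mem_range.1 hi; omega)
  obtain ⟨k, hk1, hk2⟩ := (hA'.and hB').exists
  refine ⟨fun i => (x (min i (n + 1))).ev k, ?_, ?_, fun i => ?_, fun i hi => ?_⟩
  · show (x (min 0 (n + 1))).ev k = a
    rw [Nat.zero_min, hx0 0 rfl]; rfl
  · show (x (min (n + 1) (n + 1))).ev k = b
    rw [min_self, hx1 (n + 1) (by omega) rfl]; rfl
  · exact hk1 _ (Finset.mem_range.2 (by omega))
  · have e1 : min i (n + 1) = i := min_eq_left (by omega)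
    have e2 : min (i + 1) (n + 1) = i + 1 := min_eq_left (by omega)
    beta_reduce
    rw [e1, e2]
    exact hk2 i (Finset.mem_range.2 (by omega))

/-- a factor has one orbit iff its ultrapower has -/
theorem oneOrbit_UP_iff : OneOrbit (UP M 𝒰) ↔ OneOrbit M := by
  refine ⟨fun h u v hu hv => ?_, oneOrbit_up_of 𝒰⟩
  obtain ⟨n, hn⟩ := h _ _ (haarU_iU 𝒰 hu) (haarU_iU 𝒰 hv)
  exact ⟨n, conn_of_conn_iU 𝒰 hu hv hn⟩

end Orbit

/-- the map of sequences -/
noncomputable def sqMap {I : Type u} [TopologicalSpace I] [DiscreteTopology I] {K M : Type u} [CStarAlgebra K] [CStarAlgebra M] (φ : K →⋆ₙₐ[ℂ] M) :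
    Sq I K →⋆ₙₐ[ℂ] Sq I M where
  toFun x := Sq.mk (fun k => φ (x.ev k)) ‖x‖
    (fun k => (NonUnitalStarAlgHom.norm_apply_le φ _).trans (x.norm_ev_le k))
  map_smul' c x := sq_ext fun k => by
    rw [Sq.ev_mk, Sq.ev_smul, map_smul]; rfl
  map_zero' := sq_ext fun k => by rw [Sq.ev_mk, Sq.ev_zero, Sq.ev_zero, map_zero]
  map_add' x y := sq_ext fun k => by rw [Sq.ev_mk, Sq.ev_add, Sq.ev_add, Sq.ev_mk, Sq.ev_mk, map_add]
  map_mul' x y := sq_ext fun k => by rw [Sq.ev_mk, Sq.ev_mul, Sq.ev_mul, Sq.ev_mk, Sq.ev_mk, map_mul]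
  map_star' x := sq_ext fun k => by rw [Sq.ev_mk, Sq.ev_star, Sq.ev_star, Sq.ev_mk, map_star]

section

variable {I : Type u} [TopologicalSpace I] [DiscreteTopology I] {K M : Type u} [CStarAlgebra K] [TVN K] [CStarAlgebra M]
  [TVN M]
  {φ : K →⋆ₙₐ[ℂ] M} {e : M} (𝒰 : Ultrafilter I)

theorem toUP_eq_zero_iff (x : Sq I M) :
    toUP 𝒰 x = 0 ↔ Tendsto (fun k => n2 (x.ev k)) (𝒰 : Filter I) (𝓝 0) := by
  constructor
  · intro h
    have h1 := tendsto_n2_toUP 𝒰 x
    rwa [h, n2_zero] at h1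
  · intro h
    exact n2_eq_zero.1 (tendsto_nhds_unique (tendsto_n2_toUP 𝒰 x) h)

theorem isProj_iU (he : IsProj e) : IsProj (iU 𝒰 e) :=
  ⟨by rw [← map_mul, he.mul], by rw [← map_star, he.star]⟩

theorem tau_iU (a : M) : tau (iU 𝒰 a) = tau a := by
  show (tr (iU 𝒰 a)).re = (tr a).re
  rw [tr_iU]

/-- the ultrapower of a corner -/
theorem exists_up (hφ : CornerMap φ e) :
    ∃ Φ : UP K 𝒰 →⋆ₙₐ[ℂ] UP M 𝒰, CornerMap Φ (iU 𝒰 e) := by
  have he := hφ.proj
  have ht := hφ.tau_pos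
  obtain ⟨Φ, hΦ⟩ := exists_descend (nu (toUP (M := K) 𝒰)) (toUP_surjective 𝒰)
    ((nu (toUP (M := M) 𝒰)).comp (sqMap φ)) (fun x hx => by
      have h1 : toUP 𝒰 x = 0 := hx
      rw [toUP_eq_zero_iff] at h1
      show toUP 𝒰 (sqMap φ x) = 0
      rw [toUP_eq_zero_iff]
      exact squeeze_zero (fun _ => n2_nonneg _) (fun k => hφ.n2_le _) h1)
  have hΦ' : ∀ x : Sq I K, Φ (toUP 𝒰 x) = toUP 𝒰 (sqMap φ x) := hΦ
  have hcorner : ∀ y, iU 𝒰 e * Φ y * iU 𝒰 e = Φ y := by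
    intro y
    obtain ⟨x, rfl⟩ := toUP_surjective 𝒰 y
    rw [hΦ']
    show toUP 𝒰 (cstSq e) * toUP 𝒰 (sqMap φ x) * toUP 𝒰 (cstSq e) = _
    rw [← map_mul, ← map_mul]
    congr 1
    exact sq_ext fun k => by
      rw [Sq.ev_mul, Sq.ev_mul]
      exact hφ.corner _
  refine ⟨Φ, isProj_iU 𝒰 he, ?_, ?_, hcorner, ?_, ?_⟩
  · intro y y' hyy
    have h0 : Φ (y - y') = 0 := by rw [map_sub, hyy, sub_self]
    obtain ⟨x, hx⟩ := toUP_surjective 𝒰 (y - y')
    rw [← hx, hΦ', toUP_eq_zero_iff] at h0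
    have h1 : toUP 𝒰 x = 0 := by
      rw [toUP_eq_zero_iff]
      have h2 : Tendsto (fun k => (Real.sqrt (tau e))⁻¹ * n2 ((sqMap φ x).ev k)) (𝒰 : Filter I) (𝓝 0) := by
        have := h0.const_mul (Real.sqrt (tau e))⁻¹
        rwa [mul_zero] at this
      refine h2.congr fun k => ?_
      have h3 := hφ.n2_sq (x.ev k)
      have h4 : n2 (φ (x.ev k)) = Real.sqrt (tau e) * n2 (x.ev k) := by
        rw [← Real.sqrt_sq (n2_nonneg (φ (x.ev k))), h3, Real.sqrt_mul ht.le,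
          Real.sqrt_sq (n2_nonneg _)]
      show (Real.sqrt (tau e))⁻¹ * n2 (φ (x.ev k)) = _
      rw [h4, inv_mul_cancel_left₀ (Real.sqrt_pos.2 ht).ne']
    rw [hx] at h1
    exact sub_eq_zero.1 h1
  · intro z hz
    obtain ⟨x, hx, rfl⟩ := exists_lift_UP 𝒰 z
    have h1 : ∀ k, ∃ w : K, φ w = e * x.ev k * e := fun k => hφ.surj _ (by
      rw [← mul_assoc, ← mul_assoc, he.mul, mul_assoc, he.mul])
    choose w hw using h1
    have h2 : ∀ k, ‖w k‖ ≤ ‖x‖ := fun k => by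
      have h4 : ‖φ (w k)‖ = ‖w k‖ := NonUnitalStarAlgHom.norm_map φ hφ.inj (w k)
      rw [← h4, hw]
      calc ‖e * x.ev k * e‖ ≤ ‖e‖ * ‖x.ev k‖ * ‖e‖ :=
            (norm_mul_le _ _).trans (mul_le_mul_of_nonneg_right (norm_mul_le _ _) (norm_nonneg _))
        _ ≤ 1 * ‖x‖ * 1 := by
            gcongr
            · exact he.norm_le
            · exact x.norm_ev_le k
            · exact he.norm_le
        _ = ‖x‖ := by ring
    refine ⟨toUP 𝒰 (Sq.mk w ‖x‖ h2), ?_⟩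
    rw [hΦ', ← hz]
    show _ = toUP 𝒰 (cstSq e) * toUP 𝒰 x * toUP 𝒰 (cstSq e)
    rw [← map_mul, ← map_mul]
    congr 1
    exact sq_ext fun k => by
      rw [Sq.ev_mul, Sq.ev_mul]
      exact hw k
  · rw [← map_one (toUP (M := K) 𝒰), hΦ']
    show _ = toUP 𝒰 (cstSq e)
    congr 1
    exact sq_ext fun k => hφ.one
  · intro y
    obtain ⟨x, rfl⟩ := toUP_surjective 𝒰 y
    rw [hΦ', tau_iU]
    refine tendsto_nhds_unique (tendsto_tr_toUP 𝒰 (sqMap φ x)) ?_
    have h1 := (tendsto_tr_toUP 𝒰 x).const_mul ((tau e : ℝ) : ℂ)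
    refine h1.congr fun k => ?_
    exact (hφ.tr _).symm

end

section Mats

variable {I J : Type u} [TopologicalSpace I] [DiscreteTopology I] [TopologicalSpace J] [DiscreteTopology J]
  {N X Y K : Type u} [CStarAlgebra N] [TVN N] [FactorII N] [CStarAlgebra X] [TVN X] [FactorII X]
  [CStarAlgebra Y] [TVN Y] [FactorII Y] [CStarAlgebra K] [TVN K] [FactorII K]

/-- matrices over the ultrapower -/
theorem mat_up (𝒱 : Ultrafilter I) (n : ℕ) [NeZero n]
    [PartialOrder N] [StarOrderedRing N] [PartialOrder (UP N 𝒱)] [StarOrderedRing (UP N 𝒱)] :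
    ∃ H : Mt n (UP N 𝒱) →⋆ₙₐ[ℂ] UP (Mt n N) 𝒱, CornerMap H (1 : UP (Mt n N) 𝒱) := by
  obtain ⟨σ, g, hσ, hg, hσ2⟩ := cornerMap_sg (N := N) (n := n)
  obtain ⟨Φ, hΦ⟩ := exists_up 𝒱 hσ
  have hg1 : g = sg 0 0 1 := by rw [← hσ.one, hσ2]
  have hsg : ∀ (i j k l : Fin n), (sg i j (1 : N) * sg k l 1 : Mt n N) = if j = k then sg i l 1 else 0 := by
    intro i j k l
    ext a b
    rw [mul_sg, sg_apply]
    by_cases hjk : j = k
    · rw [if_pos hjk, sg_apply, mul_one]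
      by_cases hlb : l = b
      · rw [if_pos hlb]; simp [hlb, hjk]
      · rw [if_neg hlb]; simp [hlb]
    · rw [if_neg hjk]
      simp [hjk]
  refine cornerMap_mat hΦ (fun i j => iU 𝒱 (sg i j 1)) ?_ ?_ ?_ ?_
  · intro i j k l
    show iU 𝒱 _ * iU 𝒱 _ = _
    rw [← map_mul, hsg]
    by_cases hjk : j = k
    · rw [if_pos hjk, if_pos hjk]
    · rw [if_neg hjk, if_neg hjk, map_zero]
  · intro i j
    show star (iU 𝒱 _) = _
    rw [← map_star]
    congr 1
    ext a b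
    rw [CStarMatrix.star_apply, sg_apply, sg_apply]
    by_cases h1 : i = b <;> by_cases h2 : j = a <;> simp [h1, h2]
  · show ∑ i, iU 𝒱 (sg i i 1) = 1
    rw [← map_sum, ← map_one (iU (M := Mt n N) 𝒱)]
    congr 1
    ext a b
    have hsum : ∀ t : Finset (Fin n), (∑ i ∈ t, (sg i i 1 : Mt n N)) a b = ∑ i ∈ t, (sg i i 1 : Mt n N) a b := by
      intro t
      induction t using Finset.induction_on with
      | empty => simp
      | insert i t hi ih => rw [Finset.sum_insert hi, Finset.sum_insert hi, CStarMatrix.add_apply, ih]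
    rw [hsum]
    by_cases hab : a = b
    · subst hab
      rw [CStarMatrix.one_apply_eq, Finset.sum_eq_single a]
      · rw [sg_apply, if_pos ⟨rfl, rfl⟩]
      · intro i _ hi
        rw [sg_apply, if_neg (fun h => hi h.1)]
      · intro h; exact absurd (Finset.mem_univ _) h
    · rw [CStarMatrix.one_apply_ne hab]
      refine Finset.sum_eq_zero fun i _ => ?_
      rw [sg_apply, if_neg (fun h => hab (h.1.symm.trans h.2))]
  · show iU 𝒱 (sg 0 0 1) = iU 𝒱 g
    rw [hg1]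

/-- the same level of `N` and of `K` -/
theorem level_le {𝒱 : Ultrafilter I} {𝒲 : Ultrafilter J}
    {Θ : UP N 𝒱 →⋆ₙₐ[ℂ] UP K 𝒲} {θ : UP K 𝒲} (hΘ : CornerMap Θ θ) (hθ : tau θ = 1) {s : ℝ}
    (hX : Lv N X s) (hY : Lv K Y s) : OneOrbit X ↔ OneOrbit Y := by
  let _ := CStarAlgebra.spectralOrder N
  have _ := CStarAlgebra.spectralOrderedRing N
  let _ := CStarAlgebra.spectralOrder K
  have _ := CStarAlgebra.spectralOrderedRing K
  let o1 : PartialOrder (UP N 𝒱) := CStarAlgebra.spectralOrder (UP N 𝒱)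
  have o2 : StarOrderedRing (UP N 𝒱) := CStarAlgebra.spectralOrderedRing (UP N 𝒱)
  let o3 : PartialOrder (UP K 𝒲) := CStarAlgebra.spectralOrder (UP K 𝒲)
  have o4 : StarOrderedRing (UP K 𝒲) := CStarAlgebra.spectralOrderedRing (UP K 𝒲)
  have hs := hX.rel.pos
  obtain ⟨n, hn⟩ := exists_nat_gt s
  have hn0 : (0 : ℝ) < n := hs.trans hn
  have hnz : NeZero n := ⟨by rintro rfl; simp at hn0⟩
  obtain ⟨χ, r, hχ, hr⟩ := hX.corner n hn.le
  obtain ⟨χ', r', hχ', hr'⟩ := hY.corner n hn.le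
  have f1 : FactorII (UP (Mt n N) 𝒱) := fac (Mt n N) 𝒱
  have f2 : FactorII (UP (Mt n K) 𝒲) := fac (Mt n K) 𝒲
  have f3 : FactorII (UP X 𝒱) := fac X 𝒱
  have f4 : FactorII (UP Y 𝒲) := fac Y 𝒲
  have f5 : FactorII (UP N 𝒱) := fac N 𝒱
  have f6 : FactorII (UP K 𝒲) := fac K 𝒲
  obtain ⟨Ψ, hΨ⟩ := exists_up 𝒱 hχ
  obtain ⟨Ψ', hΨ'⟩ := exists_up 𝒲 hχ'
  obtain ⟨H, hH⟩ := mat_up (N := N) 𝒱 n
  obtain ⟨H', hH'⟩ := mat_up (N := K) 𝒲 n
  obtain ⟨E, e, hE, he, -⟩ := cornerMap_entry (n := n) hΘ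
  have ht : tau (iU 𝒱 r) = s / n := by rw [tau_iU, hr]
  obtain ⟨ρ, p, hρ, hp⟩ := hH.factor hΨ (by
    rw [ht, tau_one, div_le_one hn0]; exact hn.le)
  have hR : Rel (UP X 𝒱) (UP Y 𝒲) 1 := by
    refine ⟨UP (Mt n K) 𝒲, inferInstance, inferInstance, f2, H'.comp (E.comp ρ), H' (E p), Ψ', iU 𝒲 r',
      (hρ.comp hE).comp hH', hΨ', ?_⟩
    have q1 := hH'.tau_map (E p)
    have q2 := hE.tau_map p
    have q3 : tau (H' (E p)) = s / n := by
      refine q1.trans ?_
      rw [tau_one, one_mul]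
      refine q2.trans ?_
      rw [he, hθ, one_mul]
      refine hp.trans ?_
      rw [ht, tau_one, div_one]
    have q4 : tau (iU 𝒲 r') = s / n := by rw [tau_iU, hr']
    exact q4.trans (by rw [one_mul]; exact q3.symm)
  rw [← oneOrbit_UP_iff (M := X) 𝒱, ← oneOrbit_UP_iff (M := Y) 𝒲]
  constructor
  · exact rel_oneOrbit hR le_rfl
  · intro h
    obtain ⟨χ, r, hχ, -⟩ := hR.cornerMap_of_le_one le_rfl
    exact oneOrbit_of_corner hχ h

end Mats

end GU

end SCO
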