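import Pool.Agent.Work.MP_52dd0f_nd.All

/-!
# Matrix units, amplifications (tools for the theorem on isomorphic ultrapowers)
-/

set_option autoImplicit false
set_option linter.unusedSectionVars false

namespace SCO

open Filter Topology

universe u

namespace UF

open ND

/-- descent of homomorphisms -/
theorem exists_descend {A B C : Type u} [CStarAlgebra A] [CStarAlgebra B] [CStarAlgebra C]
    (f : A →⋆ₙₐ[ℂ] B) (hf : Function.Surjective f) (g : A →⋆ₙₐ[ℂ] C)
    (h : ∀ x, f x = 0 → g x = 0) : ∃ k : B →⋆ₙₐ[ℂ] C, ∀ x, k (f x) = g x := by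
  choose s hs using hf
  have key : ∀ x y, f x = f y → g x = g y := fun x y hxy => by
    have h1 := h (x - y) (by rw [map_sub, hxy, sub_self])
    rw [map_sub] at h1
    exact sub_eq_zero.1 h1
  let k : B →⋆ₙₐ[ℂ] C :=
    { toFun := fun b => g (s b)
      map_smul' := fun c b => by
        have : g (s (c • b)) = g (c • s b) := key _ _ (by rw [hs, map_smul, hs])
        rw [this, map_smul]; rfl
      map_zero' := by
        have : g (s 0) = g 0 := key _ _ (by rw [hs, map_zero])
        rw [this, map_zero]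
      map_add' := fun a b => by
        have : g (s (a + b)) = g (s a + s b) := key _ _ (by rw [hs, map_add, hs, hs])
        rw [this, map_add]
      map_mul' := fun a b => by
        have : g (s (a * b)) = g (s a * s b) := key _ _ (by rw [hs, map_mul, hs, hs])
        rw [this, map_mul]
      map_star' := fun a => by
        have : g (s (star a)) = g (star (s a)) := key _ _ (by rw [hs, map_star, hs])
        rw [this, map_star] }
  exact ⟨k, fun x => key _ _ (hs _)⟩

/-- a unital homomorphism as a nonunital one -/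
def nu {A B : Type u} [CStarAlgebra A] [CStarAlgebra B] (f : A →⋆ₐ[ℂ] B) : A →⋆ₙₐ[ℂ] B where
  toFun := f
  map_smul' := fun c a => by rw [map_smul]; rfl
  map_zero' := map_zero f
  map_add' := map_add f
  map_mul' := map_mul f
  map_star' := map_star f

section Mat

variable {Q A : Type u} [CStarAlgebra Q] [TVN Q] [PartialOrder Q] [StarOrderedRing Q] [CStarAlgebra A] [TVN A]
  {n : ℕ} [NeZero n]

/-- a factor with matrix units is a matrix algebra -/
theorem cornerMap_mat {φ : Q →⋆ₙₐ[ℂ] A} {e : A} (hφ : CornerMap φ e) (a : Fin n → Fin n → A)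
    (hm : ∀ i j k l, a i j * a k l = if j = k then a i l else 0) (hs : ∀ i j, star (a i j) = a j i)
    (h1 : ∑ i, a i i = 1) (h0 : a 0 0 = e) : ∃ H : Mt n Q →⋆ₙₐ[ℂ] A, CornerMap H (1 : A) := by
  have hel : ∀ j, e * a 0 j = a 0 j := fun j => by rw [← h0, hm, if_pos rfl]
  have her : ∀ i, a i 0 * e = a i 0 := fun i => by rw [← h0, hm, if_pos rfl]
  have hmm : ∀ (i j k l : Fin n) (x y : Q), a i 0 * φ x * a 0 j * (a k 0 * φ y * a 0 l) =
      if j = k then a i 0 * φ (x * y) * a 0 l else 0 := by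
    intro i j k l x y
    have h2 : a i 0 * φ x * a 0 j * (a k 0 * φ y * a 0 l) =
        a i 0 * φ x * (a 0 j * a k 0) * φ y * a 0 l := by noncomm_ring
    rw [h2, hm]
    by_cases h : j = k
    · rw [if_pos h, if_pos h, h0, mul_assoc (a i 0) (φ x) e, hφ.right, mul_assoc (a i 0), ← map_mul]
    · rw [if_neg h, if_neg h]; simp
  let H : Mt n Q →⋆ₙₐ[ℂ] A :=
    { toFun := fun x => ∑ i, ∑ j, a i 0 * φ (x i j) * a 0 j
      map_smul' := fun c x => by
        rw [MonoidHom.id_apply, Finset.smul_sum]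
        refine Finset.sum_congr rfl fun i _ => ?_
        rw [Finset.smul_sum]
        refine Finset.sum_congr rfl fun j _ => ?_
        rw [CStarMatrix.smul_apply, map_smul, mul_smul_comm, smul_mul_assoc]
      map_zero' := by simp
      map_add' := fun x y => by
        rw [← Finset.sum_add_distrib]
        refine Finset.sum_congr rfl fun i _ => ?_
        rw [← Finset.sum_add_distrib]
        refine Finset.sum_congr rfl fun j _ => ?_
        rw [CStarMatrix.add_apply, map_add, mul_add, add_mul]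
      map_mul' := fun x y => by
        show ∑ i, ∑ j, a i 0 * φ ((x * y) i j) * a 0 j =
          (∑ i, ∑ j, a i 0 * φ (x i j) * a 0 j) * ∑ i, ∑ j, a i 0 * φ (y i j) * a 0 j
        rw [Finset.sum_mul]
        refine Finset.sum_congr rfl fun i _ => ?_
        rw [Finset.sum_mul]
        have h2 : ∀ j, (a i 0 * φ (x i j) * a 0 j) * (∑ k, ∑ l, a k 0 * φ (y k l) * a 0 l) =
            ∑ l, a i 0 * φ (x i j * y j l) * a 0 l := by
          intro j
          rw [Finset.mul_sum, Finset.sum_eq_single j]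
          · rw [Finset.mul_sum]
            refine Finset.sum_congr rfl fun l _ => ?_
            rw [hmm, if_pos rfl]
          · intro k _ hk
            rw [Finset.mul_sum]
            refine Finset.sum_eq_zero fun l _ => ?_
            rw [hmm, if_neg (Ne.symm hk)]
          · intro h; exact absurd (Finset.mem_univ _) h
        rw [Finset.sum_congr rfl fun j _ => h2 j, Finset.sum_comm]
        refine Finset.sum_congr rfl fun l _ => ?_
        rw [CStarMatrix.mul_apply, map_sum, Finset.mul_sum, Finset.sum_mul]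
      map_star' := fun x => by
        show ∑ i, ∑ j, a i 0 * φ ((star x) i j) * a 0 j = star (∑ i, ∑ j, a i 0 * φ (x i j) * a 0 j)
        rw [star_sum, Finset.sum_comm]
        refine Finset.sum_congr rfl fun i _ => ?_
        rw [star_sum]
        refine Finset.sum_congr rfl fun j _ => ?_
        rw [star_mul, star_mul, hs, hs, ← map_star, mul_assoc]
        rfl }
  have hH : ∀ x, H x = ∑ i, ∑ j, a i 0 * φ (x i j) * a 0 j := fun _ => rfl
  have hent : ∀ (x : Mt n Q) (i j : Fin n), a 0 i * H x * a j 0 = φ (x i j) := by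
    intro x i j
    rw [hH, Finset.mul_sum, Finset.sum_mul, Finset.sum_eq_single i]
    · rw [Finset.mul_sum, Finset.sum_mul, Finset.sum_eq_single j]
      · have h2 : a 0 i * (a i 0 * φ (x i j) * a 0 j) * a j 0 =
          (a 0 i * a i 0) * φ (x i j) * (a 0 j * a j 0) := by noncomm_ring
        rw [h2, hm, hm, if_pos rfl, if_pos rfl, h0, hφ.corner]
      · intro l _ hl
        have h2 : a 0 i * (a i 0 * φ (x i l) * a 0 l) * a j 0 =
          (a 0 i * a i 0) * φ (x i l) * (a 0 l * a j 0) := by noncomm_ring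
        rw [h2, hm 0 l, if_neg hl, mul_zero]
      · intro h; exact absurd (Finset.mem_univ _) h
    · intro k _ hk
      rw [Finset.mul_sum, Finset.sum_mul]
      refine Finset.sum_eq_zero fun l _ => ?_
      have h2 : a 0 i * (a k 0 * φ (x k l) * a 0 l) * a j 0 =
          (a 0 i * a k 0) * φ (x k l) * (a 0 l * a j 0) := by noncomm_ring
      rw [h2, hm 0 i, if_neg (Ne.symm hk), zero_mul, zero_mul]
    · intro h; exact absurd (Finset.mem_univ _) h
  have htr : ∀ i : Fin n, tr (a i i) = tr e := fun i => by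
    have h2 : a i i = a i 0 * a 0 i := by rw [hm, if_pos rfl]
    rw [h2, tr_comm, hm, if_pos rfl, h0]
  have hn : (n : ℂ) ≠ 0 := by exact_mod_cast NeZero.ne n
  have hte : (n : ℂ) * ((tau e : ℝ) : ℂ) = 1 := by
    have h2 := congrArg (tr : A →ₗ[ℂ] ℂ) h1
    rw [map_sum, tr_one, Finset.sum_congr rfl fun i _ => htr i] at h2
    simp only [Finset.sum_const, Finset.card_univ, Fintype.card_fin, nsmul_eq_mul] at h2
    rw [← hφ.proj.tr_eq, h2]
  refine ⟨H, IsProj.one, ?_, ?_, ?_, ?_, ?_⟩
  · intro x y hxy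
    have h2 : ∀ i j, x i j = y i j := fun i j => hφ.inj (by rw [← hent, ← hent, hxy])
    exact CStarMatrix.ext h2
  · intro z _
    have h2 : ∀ i j, ∃ y, φ y = a 0 i * z * a j 0 := fun i j => hφ.surj _ (by
      have : e * (a 0 i * z * a j 0) * e = (e * a 0 i) * z * (a j 0 * e) := by noncomm_ring
      rw [this, hel, her])
    choose y hy using h2
    refine ⟨CStarMatrix.ofMatrix (Matrix.of y), ?_⟩
    rw [hH]
    have h3 : ∀ i j, a i 0 * φ ((CStarMatrix.ofMatrix (Matrix.of y)) i j) * a 0 j = a i i * z * a j j := by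
      intro i j
      have h4 : φ ((CStarMatrix.ofMatrix (Matrix.of y)) i j) = a 0 i * z * a j 0 := hy i j
      have h5 : a i 0 * (a 0 i * z * a j 0) * a 0 j = (a i 0 * a 0 i) * z * (a j 0 * a 0 j) := by
        noncomm_ring
      rw [h4, h5, hm, hm, if_pos rfl, if_pos rfl]
    rw [Finset.sum_congr rfl fun i _ => Finset.sum_congr rfl fun j _ => h3 i j]
    calc ∑ i, ∑ j, a i i * z * a j j = ∑ i, a i i * z * ∑ j, a j j := by
          refine Finset.sum_congr rfl fun i _ => ?_
          rw [Finset.mul_sum]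
      _ = (∑ i, a i i) * z := by
          rw [Finset.sum_mul]
          exact Finset.sum_congr rfl fun i _ => by rw [h1, mul_one]
      _ = z := by rw [h1, one_mul]
  · intro y; rw [one_mul, mul_one]
  · rw [hH]
    calc ∑ i, ∑ j, a i 0 * φ ((1 : Mt n Q) i j) * a 0 j = ∑ i, a i i := by
          refine Finset.sum_congr rfl fun i _ => ?_
          rw [Finset.sum_eq_single i]
          · rw [CStarMatrix.one_apply_eq, hφ.one, her, hm, if_pos rfl]
          · intro j _ hj
            rw [CStarMatrix.one_apply_ne (Ne.symm hj), map_zero, mul_zero, zero_mul]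
          · intro h; exact absurd (Finset.mem_univ _) h
      _ = 1 := h1
  · intro y
    rw [hH, map_sum, tau_one, Complex.ofReal_one, one_mul, tr_mat]
    have h2 : ∀ i, tr (∑ j, a i 0 * φ (y i j) * a 0 j) = ((tau e : ℝ) : ℂ) * tr (y i i) := by
      intro i
      rw [map_sum, Finset.sum_eq_single i]
      · rw [tr_comm, ← mul_assoc, hm, if_pos rfl, h0, hφ.left, hφ.tr]
      · intro j _ hj
        rw [tr_comm, ← mul_assoc, hm, if_neg hj, zero_mul, map_zero]
      · intro h; exact absurd (Finset.mem_univ _) h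
    rw [Finset.sum_congr rfl fun i _ => h2 i, ← Finset.mul_sum]
    have h3 : ((tau e : ℝ) : ℂ) = (n : ℂ)⁻¹ := by
      field_simp
      rw [mul_comm]; exact hte
    rw [h3]

end Mat

/-! ## Levels -/

section Level

variable {N X Y Z K : Type u} [CStarAlgebra N] [TVN N] [FactorII N] [CStarAlgebra X] [TVN X] [FactorII X]
  [CStarAlgebra Y] [TVN Y] [FactorII Y] [CStarAlgebra Z] [TVN Z] [FactorII Z]
  [CStarAlgebra K] [TVN K] [FactorII K]

theorem rel_refl : Rel N N 1 :=
  ⟨N, inferInstance, inferInstance, inferInstance, _, _, _, _, CornerMap.id, CornerMap.id, by rw [one_mul]⟩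

theorem rel_oneOrbit {t : ℝ} (h : Rel X Y t) (ht : 1 ≤ t) (hX : OneOrbit X) : OneOrbit Y := by
  obtain ⟨χ, r, hχ, -⟩ := h.cornerMap_of_one_le ht
  exact oneOrbit_of_corner hχ hX

/-- `X` is the amplification of `N` by `s` -/
structure Lv (N X : Type u) [CStarAlgebra N] [TVN N] [CStarAlgebra X] [TVN X] (s : ℝ) : Prop where
  rel : Rel N X s
  univ : ∀ (Z : Type u) [CStarAlgebra Z] [TVN Z] (q : ℝ), Rel N Z q → Rel X Z (q / s)

theorem lv_self : Lv N N 1 := ⟨rel_refl, fun Z _ _ q h => by rwa [div_one]⟩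

theorem lv_exists (N : Type u) [CStarAlgebra N] [TVN N] [FactorII N] {s : ℝ} (hs : 0 < s) :
    ∃ (X : Type u) (_ : CStarAlgebra X) (_ : TVN X) (_ : FactorII X), Lv N X s := by
  obtain ⟨X, i1, i2, i3, h1, h2⟩ := exists_amplification N hs
  exact ⟨X, i1, i2, i3, h1.rel, h2⟩

theorem rel_comp_left {χ : Y →⋆ₙₐ[ℂ] X} {r : X} (hχ : CornerMap χ r) {q : ℝ} (h : Rel X Z q) :
    Rel Y Z (q / tau r) := by
  obtain ⟨A, i1, i2, i3, φ, e, ψ, f, hφ, hψ, htr⟩ := h
  refine ⟨A, i1, i2, i3, φ.comp χ, φ r, ψ, f, hχ.comp hφ, hψ, ?_⟩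
  have := hχ.tau_pos
  rw [hφ.tau_map, htr]
  field_simp

theorem lv_of_rel {s : ℝ} (h : Rel N X s) : Lv N X s := by
  obtain ⟨X₀, i1, i2, i3, h1, h2⟩ := lv_exists N h.pos
  refine ⟨h, fun Z _ _ q hq => ?_⟩
  have h3 := h2 X s h
  rw [div_self h.pos.ne'] at h3
  obtain ⟨χ, r, hχ, hr⟩ := h3.cornerMap_of_le_one le_rfl
  obtain ⟨A, i1, i2, i3, φ, e, ψ, f, hφ, hψ, htr⟩ := h2 Z q hq
  refine ⟨A, i1, i2, i3, φ.comp χ, φ r, ψ, f, hχ.comp hφ, hψ, ?_⟩
  rw [hφ.tau_map, htr, hr, mul_one]

theorem rel_mat (n : ℕ) [NeZero n] [PartialOrder N] [StarOrderedRing N] : Rel N (Mt n N) n := by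
  obtain ⟨σ, g, hσ, hg, -⟩ := cornerMap_sg (N := N) (n := n)
  refine ⟨Mt n N, inferInstance, inferInstance, inferInstance, σ, g, _, 1, hσ, CornerMap.id, ?_⟩
  have : (n : ℝ) ≠ 0 := by exact_mod_cast NeZero.ne n
  rw [tau_one, hg, mul_one_div_cancel this]

theorem Lv.corner {s : ℝ} (h : Lv N X s) (n : ℕ) [NeZero n] (hn : s ≤ n) [PartialOrder N] [StarOrderedRing N] :
    ∃ (χ : X →⋆ₙₐ[ℂ] Mt n N) (r : Mt n N), CornerMap χ r ∧ tau r = s / n := by
  have hs := h.rel.pos
  obtain ⟨χ, r, hχ, hr⟩ := (h.univ (Mt n N) n (rel_mat n)).cornerMap_of_one_le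
    (by rw [le_div_iff₀ hs]; linarith)
  exact ⟨χ, r, hχ, by rw [hr, one_div_div]⟩

end Level

section Levels

variable {N K X Y : Type u} [CStarAlgebra N] [TVN N] [FactorII N] [CStarAlgebra K] [TVN K] [FactorII K]
  [CStarAlgebra X] [TVN X] [FactorII X] [CStarAlgebra Y] [TVN Y] [FactorII Y]

theorem lv_comp {r s : ℝ} (hK : Lv N K r) (hY : Lv K Y s) : Lv N Y (r * s) := by
  have hr := hK.rel.pos
  have hs := hY.rel.pos
  refine ⟨?_, fun Z _ _ q hq => ?_⟩
  · have h1 := (hY.univ N _ (hK.univ N 1 rel_refl)).symm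
    have h2 : 1 / (1 / r / s) = r * s := by field_simp
    rwa [h2] at h1
  · have h1 := hY.univ Z _ (hK.univ Z q hq)
    rwa [div_div] at h1

theorem lv_unique {s : ℝ} (hX : Lv N X s) (hY : Lv N Y s) (h : OneOrbit X) : OneOrbit Y := by
  have h1 := hX.univ Y s hY.rel
  rw [div_self hX.rel.pos.ne'] at h1
  exact rel_oneOrbit h1 le_rfl h

/-- the amplification by `s` has one orbit -/
def Good (N : Type u) [CStarAlgebra N] [TVN N] (s : ℝ) : Prop :=
  ∃ (X : Type u) (_ : CStarAlgebra X) (_ : TVN X) (_ : FactorII X), Lv N X s ∧ OneOrbit X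

theorem Good.of {s : ℝ} (h : Good N s) (hX : Lv N X s) : OneOrbit X := by
  obtain ⟨Y, _, _, _, h1, h2⟩ := h
  exact lv_unique h1 hX h2

theorem Good.mono {s t : ℝ} (h : Good N s) (hst : s ≤ t) : Good N t := by
  obtain ⟨X, _, _, _, h1, h2⟩ := h
  have hs := h1.rel.pos
  obtain ⟨Y, _, _, _, h3⟩ := lv_exists N (hs.trans_le hst)
  exact ⟨Y, inferInstance, inferInstance, inferInstance, h3, rel_oneOrbit (h1.univ Y t h3.rel) (by rw [le_div_iff₀ hs]; linarith) h2⟩

end Levels

end UF

end SCO
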